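import Pool.Agent.D0H63.FP.Det5
import Pool.Agent.N625.PT.H

/-!
# Primes `p < n` with `q = ⌊(n - p) / m⌋` prime and `q ^ 2 - 2` a product of at most five primes

For almost all `n` and for all the small slopes `m` at the same time; and the same for the random integers given by digits.

Nothing is used besides Mathlib in the statement: `∑ v ∈ range (b ^ k), (if P v then 0 else p v)` is the probability that
the random integer `v < b ^ k` with the distribution `p` does not have the property `P`.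
-/

set_option autoImplicit false

namespace Pool.Agent.Results.MP_4011c3_nt.AlmostAllFivePrimeFactors
open Finset Pool.Agent.D0H63.FP

/-- The probability, for the distribution `μ` on the words of `k` digits (the integers `v < b ^ k`), that the word begins with
the `i` digits of `u < b ^ i`. -/
noncomputable def begins (b k : ℕ) (μ : ℕ → ℝ) (i u : ℕ) : ℝ := ∑ w ∈ range (b ^ (k - i)), μ (u * b ^ (k - i) + w)

/-- `p` is a probability on the words of `k` digits in base `b`, read as integers `v < b ^ k`. There is another probability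
`μ` with `p ≤ k ^ T μ` such that after every beginning `u` two different blocks `a`, `a'` of `L` digits can be exchanged:
`p (u a w) = r p (u a' w)` for all endings `w`, with a factor `r` between `η` and `1 / η` which does not depend on `w`; and
given the beginning `u`, each of the two blocks comes next with a probability of at least `η` in the distribution `μ`.
(For `T = 0` one has `μ = p`. For the uniform distribution on a set of words `r` is `1`.) -/
structure Exchangeable (b L : ℕ) (η : ℝ) (T k : ℕ) (p : ℕ → ℝ) : Prop where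
  nonneg : ∀ v, 0 ≤ p v
  sum : ∑ v ∈ range (b ^ k), p v = 1
  dominated : ∃ μ : ℕ → ℝ, (∀ v, 0 ≤ μ v) ∧ ∑ v ∈ range (b ^ k), μ v = 1 ∧ (∀ v < b ^ k, p v ≤ (k : ℝ) ^ T * μ v) ∧
    ∀ i u : ℕ, i + L ≤ k → u < b ^ i → ∃ (a a' : ℕ) (r : ℝ), a < a' ∧ a' < b ^ L ∧ η ≤ r ∧ η * r ≤ 1 ∧
      (∀ w < b ^ (k - (i + L)), p ((b ^ L * u + a) * b ^ (k - (i + L)) + w) = r * p ((b ^ L * u + a') * b ^ (k - (i + L)) + w)) ∧
      η * begins b k μ i u ≤ begins b k μ (i + L) (b ^ L * u + a) ∧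
      η * begins b k μ i u ≤ begins b k μ (i + L) (b ^ L * u + a')

/-- the pair `(m, n)` is admissible -/
def Admissible (m n : ℕ) : Prop :=
  2 * m + 1 < n ∧ ((m = 1 ∧ Even n) ∨ (m = 3 ∧ ¬ n ≡ 1 [MOD 6]) ∨ m = 2 ∨ 4 ≤ m)

open Classical in
/-- There are at least `c n / (m (log n) ^ 3)` primes `p < n` such that `q = ⌊(n - p) / m⌋` is prime, `q ^ 2 - 2` has at most
five prime factors, counted with multiplicity, and every prime factor `ℓ` of `q ^ 2 - 2` satisfies `ℓ ≥ n ^ 0.199`. -/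
def Many (c : ℝ) (m n : ℕ) : Prop :=
  c * n / (m * Real.log n ^ 3) ≤ (((range n).filter (fun p : ℕ => p.Prime ∧ ((n - p) / m).Prime ∧
    (((n - p) / m) ^ 2 - 2).primeFactorsList.length ≤ 5 ∧
    ∀ ℓ : ℕ, ℓ.Prime → ℓ ∣ ((n - p) / m) ^ 2 - 2 → (n : ℝ) ^ (199 / 1000 : ℝ) ≤ ℓ)).card : ℝ)

lemma cop (N m k c : ℕ) (h : N + c = m * k ∨ N = m * k + c) (hc : Nat.Coprime c m) : Nat.Coprime N m := by
  by_contra hne
  obtain ⟨p, hp, hpN, hpm⟩ := Nat.Prime.not_coprime_iff_dvd.1 hne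
  have h1 : p ∣ m * k := Dvd.dvd.mul_right hpm k
  have h2 : p ∣ c := by
    rcases h with h | h
    · rw [← h] at h1
      exact (Nat.dvd_add_right hpN).1 h1
    · rw [h] at hpN
      exact (Nat.dvd_add_right h1).1 hpN
  exact (Nat.Prime.not_coprime_iff_dvd.2 ⟨p, hp, h2, hpm⟩) hc

lemma loc (m n : ℕ) (hm : 1 ≤ m) (h : Admissible m n) : ∃ r, r < m ∧ (n - r).Coprime m ∧ Odd (n - r + m) := by
  obtain ⟨hn, hcase⟩ := h
  have hdm := Nat.div_add_mod (n - 1) m
  have hlt := Nat.mod_lt (n - 1) (show 0 < m by omega)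
  generalize hk : (n - 1) / m = k at *
  generalize ha : (n - 1) % m = a at *
  rcases Nat.even_or_odd m with hme | hmo
  · refine ⟨a, hlt, ?_, ?_⟩
    · exact cop (n - a) m k 1 (Or.inr (by omega)) (Nat.coprime_one_left m)
    · have h1 : n - a = m * k + 1 := by omega
      rw [h1]
      have h2 : Even (m * k) := hme.mul_right k
      obtain ⟨t, ht⟩ := h2
      obtain ⟨s, hs⟩ := hme
      exact ⟨t + s, by omega⟩
  · have h2m : Nat.Coprime 2 m := Nat.coprime_two_left.2 hmo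
    obtain ⟨s, hs⟩ := hmo
    rcases Nat.eq_zero_or_pos a with ha0 | ha0
    · rcases Nat.even_or_odd n with hne | hno
      · obtain ⟨t, ht⟩ := hne
        refine ⟨0, by omega, ?_, ⟨t + s, by omega⟩⟩
        rw [Nat.sub_zero]
        exact cop n m k 1 (Or.inr (by omega)) (Nat.coprime_one_left m)
      · obtain ⟨t, ht⟩ := hno
        have hm5 : 5 ≤ m := by
          rcases hcase with ⟨_, ⟨u, hu⟩⟩ | ⟨h3, h6⟩ | h2 | h4
          · omega
          · exfalso
            apply h6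
            unfold Nat.ModEq
            subst h3
            omega
          · omega
          · omega
        refine ⟨3, by omega, ?_, ⟨t + s - 1, by omega⟩⟩
        exact cop (n - 3) m k 2 (Or.inl (by omega)) h2m
    · rcases Nat.even_or_odd (n - a) with hne | hno
      · obtain ⟨t, ht⟩ := hne
        refine ⟨a, hlt, ?_, ⟨t + s, by omega⟩⟩
        exact cop (n - a) m k 1 (Or.inr (by omega)) (Nat.coprime_one_left m)
      · obtain ⟨t, ht⟩ := hno
        refine ⟨a - 1, by omega, ?_, ⟨t + s + 1, by omega⟩⟩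
        exact cop (n - (a - 1)) m k 2 (Or.inr (by omega)) h2m

lemma begins_sum (b k : ℕ) (μ : ℕ → ℝ) (i u : ℕ) (hi : i < k) :
    ∑ a ∈ range b, begins b k μ (i + 1) (b * u + a) = begins b k μ i u := by
  unfold begins
  obtain ⟨n, hn⟩ : ∃ n, k - i = n + 1 := ⟨k - i - 1, by omega⟩
  have h1 : k - (i + 1) = n := by omega
  rw [h1, hn, pow_succ, mul_comm (b ^ n) b, Pool.Agent.N625.PT.sum_blocks b (b ^ n)]
  apply sum_congr rfl
  intro a _
  apply sum_congr rfl
  intro w _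
  congr 1
  ring

lemma flex_of {b L T k : ℕ} {η : ℝ} {p : ℕ → ℝ} (hp : Exchangeable b L η T k p) : Pool.Agent.N625.PT.Flex b L η T k p := by
  obtain ⟨h0, h1, μ, m0, m1, m2, m3⟩ := hp
  have hT : (0 : ℝ) ≤ (k : ℝ) ^ T := by positivity
  have hb0 : ∀ i u, 0 ≤ begins b k μ i u := fun i u => sum_nonneg fun w _ => m0 _
  refine ⟨h0, h1, fun i u => (k : ℝ) ^ T * begins b k μ i u, fun i u => mul_nonneg hT (hb0 i u), ?_, ?_, ?_, ?_⟩
  · intro v hv
    refine (m2 v hv).trans (le_of_eq ?_)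
    unfold begins
    simp
  · intro i hi u _
    simp only
    rw [← mul_sum, begins_sum b k μ i u hi]
  · simp only
    have : begins b k μ 0 0 = 1 := by
      unfold begins
      simpa using m1
    rw [this, mul_one]
  · intro i u hi hu
    obtain ⟨a, a', r, q1, q2, q3, q4, q5, q6, q7⟩ := m3 i u hi hu
    refine ⟨a, a', r, q1, q2, q3, q4, q5, ?_, ?_⟩
    · simp only
      calc η * ((k : ℝ) ^ T * begins b k μ i u) = (k : ℝ) ^ T * (η * begins b k μ i u) := by ring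
        _ ≤ _ := mul_le_mul_of_nonneg_left q6 hT
    · simp only
      calc η * ((k : ℝ) ^ T * begins b k μ i u) = (k : ℝ) ^ T * (η * begins b k μ i u) := by ring
        _ ≤ _ := mul_le_mul_of_nonneg_left q7 hT

lemma many_of (c : ℝ) (hc : 0 < c) (N₀ : ℕ) (hN₀ : ∀ N : ℕ, N₀ ≤ N → 3 ≤ N ∧ ((2 * N : ℕ) : ℝ) ^ (199 / 1000 : ℝ) ≤
    (N : ℝ) ^ (999 / 5000 : ℝ)) (m n r : ℕ) (hm : 1 ≤ m) (hr : r < m) (hn : r < n)
    (hcop : (n - r).Coprime m) (hodd : Odd (n - r + m)) (h : PF c N₀ m (n - r)) : Many (c / 2) m n := by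
  classical
  obtain ⟨h1, h2, h3⟩ := h hcop hodd
  obtain ⟨h4, h5⟩ := hN₀ _ h1
  obtain ⟨N, hN⟩ : ∃ N, N = n - r := ⟨_, rfl⟩
  rw [← hN] at h1 h2 h3 h4 h5
  have hnN : n = N + r := by omega
  have hn2N : n ≤ 2 * N := by omega
  have hNn : N ≤ n := by omega
  have hN0 : (0 : ℝ) < N := by exact_mod_cast (by omega : 0 < N)
  have hm0 : (0 : ℝ) < m := by exact_mod_cast hm
  have hNr : (3 : ℝ) ≤ N := by exact_mod_cast h4
  have hNnr : (N : ℝ) ≤ n := by exact_mod_cast hNn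
  have hlN : 0 < Real.log N := Real.log_pos (by linarith)
  have hlNn : Real.log N ≤ Real.log n := Real.log_le_log hN0 hNnr
  unfold Many
  refine le_trans ?_ (h3.trans ?_)
  · have hn2 : (n : ℝ) ≤ 2 * N := by exact_mod_cast hn2N
    calc c / 2 * n / (m * Real.log n ^ 3) ≤ c / 2 * (2 * N) / (m * Real.log N ^ 3) := by gcongr
      _ = c * N / (m * Real.log N ^ 3) := by ring
  · have h6 : ((Icc 1 N).filter (fun q : ℕ => q.Prime ∧ Good ((N : ℝ) ^ (999 / 5000 : ℝ)) q ∧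
      ((N : ℤ) - m * q).toNat.Prime)).card ≤ ((range n).filter (fun p : ℕ => p.Prime ∧ ((n - p) / m).Prime ∧
    (((n - p) / m) ^ 2 - 2).primeFactorsList.length ≤ 5 ∧
    ∀ ℓ : ℕ, ℓ.Prime → ℓ ∣ ((n - p) / m) ^ 2 - 2 → (n : ℝ) ^ (199 / 1000 : ℝ) ≤ ℓ)).card := by
      have hq : ∀ q : ℕ, ((N : ℤ) - m * q).toNat.Prime → ((N : ℤ) - m * q).toNat + m * q = N := by
        intro q hq
        have := hq.two_le
        have h7 : (((N : ℤ) - m * q).toNat : ℤ) = (N : ℤ) - m * q := Int.toNat_of_nonneg (by omega)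
        have h8 : ((((N : ℤ) - m * q).toNat + m * q : ℕ) : ℤ) = (N : ℤ) := by
          push_cast
          linarith
        exact_mod_cast h8
      apply card_le_card_of_injOn (fun q : ℕ => ((N : ℤ) - m * (q : ℤ)).toNat)
      · intro q hq'
        rw [mem_coe, mem_filter] at hq'
        obtain ⟨_, hq1, hG, hq3⟩ := hq'
        have h7 := hq q hq3
        have h8 := hq1.two_le
        have h9 : q ≤ m * q := Nat.le_mul_of_pos_left _ (by omega)
        simp only
        rw [mem_coe, mem_filter, mem_range]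
        have h10 : (n - ((N : ℤ) - m * q).toNat) / m = q := by
          have e : n - ((N : ℤ) - m * q).toNat = r + m * q := by omega
          rw [e, Nat.add_mul_div_left _ _ (by omega), Nat.div_eq_of_lt hr, zero_add]
        rw [h10]
        refine ⟨by omega, hq3, hq1, hG.1, fun ℓ hℓ hd => ?_⟩
        refine le_trans ?_ (hG.2 ℓ hℓ hd)
        refine le_trans ?_ h5
        apply Real.rpow_le_rpow (by positivity) _ (by norm_num)
        exact_mod_cast hn2N
      · intro q hq1 q' hq1' heq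
        rw [mem_coe, mem_filter] at hq1 hq1'
        have h7 := hq q hq1.2.2.2
        have h8 := hq q' hq1'.2.2.2
        simp only at heq
        rw [heq] at h7
        have h9 : m * q = m * q' := by omega
        exact Nat.eq_of_mul_eq_mul_left (by omega) h9
    exact_mod_cast h6

open Classical in
/-- the random integers given by digits -/
theorem digits : ∃ c : ℝ, 0 < c ∧ ∀ (b L : ℕ), 2 ≤ b → 1 ≤ L → ∀ η : ℝ, 0 < η → η ≤ 1 → ∀ (T₀ : ℕ) (κ : ℤ), κ ≠ 0 →
    ∀ B J W U : ℕ, ∃ k₀ : ℕ, ∀ k : ℕ, k₀ ≤ k → ∀ p : ℕ → ℝ, Exchangeable b L η T₀ k p → ∀ c' : ℤ, |c'| ≤ B * (b : ℤ) ^ k →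
      ∑ v ∈ range (b ^ k), (if ∀ q : ℤ, |q - (c' + κ * v)| ≤ (k : ℤ) ^ W → ∀ h : ℕ, 1 ≤ h → h ≤ k ^ J →
        ∀ n : ℕ, |(n : ℤ) - h * q| ≤ (k : ℤ) ^ W → ∀ m : ℕ, 1 ≤ m → m ≤ k ^ J → Admissible m n → Many c m n
          then 0 else p v) ≤ 1 / (k : ℝ) ^ U := by
  obtain ⟨c, hc0, hdet⟩ := det_five
  refine ⟨c / 2, by positivity, fun b L hb hL η hη0 hη1 T₀ κ hκ B J W U => ?_⟩
  have hC := Pool.Agent.N625.PT.flex_tcls b L hb hL η hη0 hη1 T₀ κ hκ
  obtain ⟨N₀, hN₀⟩ : ∃ N₀ : ℕ, ∀ N : ℕ, N₀ ≤ N → 3 ≤ N ∧ ((2 * N : ℕ) : ℝ) ^ (199 / 1000 : ℝ) ≤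
    (N : ℝ) ^ (999 / 5000 : ℝ) := by
    have ev : ∀ᶠ N : ℕ in Filter.atTop, (2 : ℝ) ≤ (N : ℝ) ^ (1 / 1250 : ℝ) :=
      ((tendsto_rpow_atTop (by norm_num)).comp tendsto_natCast_atTop_atTop).eventually_ge_atTop _
    obtain ⟨N₀, h⟩ := Filter.eventually_atTop.1 (ev.and (Filter.eventually_ge_atTop 3))
    refine ⟨N₀, fun N hN => ⟨(h N hN).2, ?_⟩⟩
    obtain ⟨h1, h2⟩ := h N hN
    have hN0 : (0 : ℝ) < N := by exact_mod_cast (by omega : 0 < N)
    have hN1 : (1 : ℝ) ≤ N := by exact_mod_cast (by omega : 1 ≤ N)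
    push_cast
    rw [Real.mul_rpow (by norm_num) hN0.le]
    calc (2 : ℝ) ^ (199 / 1000 : ℝ) * (N : ℝ) ^ (199 / 1000 : ℝ) ≤ (N : ℝ) ^ (1 / 1250 : ℝ) * (N : ℝ) ^ (199 / 1000 : ℝ) := by
          gcongr
          refine le_trans ?_ h1
          calc (2 : ℝ) ^ (199 / 1000 : ℝ) ≤ (2 : ℝ) ^ (1 : ℝ) := Real.rpow_le_rpow_of_exponent_le (by norm_num) (by norm_num)
            _ = 2 := Real.rpow_one _
      _ = (N : ℝ) ^ (999 / 5000 : ℝ) := by
          rw [← Real.rpow_add hN0]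
          norm_num
  obtain ⟨k₀, hmain⟩ := Pool.Agent.N625.PT.t_gen hC B J (W + J + 1) (U + J + 0 + 1) _ _ (hdet (J + 1) N₀)
  obtain ⟨z0, hz0⟩ : ∃ z0 : ℕ, z0 = 2 ^ (J + 1) := ⟨_, rfl⟩
  refine ⟨k₀ + z0 + 4, fun k hk p hp c' hc => ?_⟩
  have hk2 : 2 ^ (J + 1) ≤ k := by rw [← hz0]; omega
  have hk4 : 4 ≤ k := by omega
  have hflex := flex_of hp
  refine Pool.Agent.N625.PT.union J 0 U k (by omega) (b ^ k) p hp.nonneg
    (fun m _ v => ¬ ∀ q : ℤ, |q - (c' + κ * v)| ≤ (k : ℤ) ^ W → ∀ h : ℕ, 1 ≤ h → h ≤ k ^ J →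
        ∀ n : ℕ, |(n : ℤ) - h * q| ≤ (k : ℤ) ^ W → Admissible m n → Many (c / 2) m n) _ ?_ ?_
  · intro v hv
    push Not at hv
    obtain ⟨q, hq, h, hh1, hh2, n, hn, m, hm1, hm2, hadm, hrep⟩ := hv
    refine ⟨m, hm1, hm2, 0, by simp, ?_⟩
    push Not
    exact ⟨q, hq, h, hh1, hh2, n, hn, hadm, hrep⟩
  · intro m hm1 hm2 _ _
    have hAd : ∀ K' : ℕ, k ≤ K' → K' ≤ 2 * k → AdM (J + 1) (b ^ K') m := by
      intro K' hK1 hK2
      refine ⟨hm1, ?_⟩
      have hbr : (2 : ℝ) ≤ b := by exact_mod_cast hb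
      have hl : (k : ℝ) / 2 ≤ Real.log ((b ^ K' : ℕ) : ℝ) := by
        push_cast
        rw [Real.log_pow]
        have g1 : (1 : ℝ) / 2 ≤ Real.log b := by
          have := Real.log_two_gt_d9
          have := Real.log_le_log (by norm_num) hbr
          linarith
        have g2 : (k : ℝ) ≤ K' := by exact_mod_cast hK1
        have g3 : (0 : ℝ) ≤ k := Nat.cast_nonneg _
        nlinarith
      have hk0 : (0 : ℝ) < k := by exact_mod_cast (by omega : 0 < k)
      calc (m : ℝ) ≤ (k : ℝ) ^ J := by exact_mod_cast hm2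
        _ ≤ ((k : ℝ) / 2) ^ (J + 1) := by
            rw [div_pow, le_div_iff₀ (by positivity), pow_succ (k : ℝ)]
            apply mul_le_mul_of_nonneg_left _ (by positivity)
            exact_mod_cast hk2
        _ ≤ Real.log ((b ^ K' : ℕ) : ℝ) ^ (J + 1) := pow_le_pow_left₀ (by positivity) hl _
    refine le_trans (le_of_eq ?_) (hmain k (by omega) p hflex c' hc m hAd
      (fun v => ∀ q : ℤ, |q - (c' + κ * v)| ≤ (k : ℤ) ^ W → ∀ h : ℕ, 1 ≤ h → h ≤ k ^ J →
        ∀ n : ℕ, |(n : ℤ) - h * q| ≤ (k : ℤ) ^ W → Admissible m n → Many (c / 2) m n) ?_)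
    · apply sum_congr rfl
      intro v _
      by_cases hv : ∀ q : ℤ, |q - (c' + κ * v)| ≤ (k : ℤ) ^ W → ∀ h : ℕ, 1 ≤ h → h ≤ k ^ J →
        ∀ n : ℕ, |(n : ℤ) - h * q| ≤ (k : ℤ) ^ W → Admissible m n → Many (c / 2) m n
      · rw [if_neg (not_not.2 hv), if_pos hv]
      · rw [if_pos hv, if_neg hv]
    · intro v hv
      push Not at hv
      obtain ⟨q, hq, h, hh1, hh2, n, hn, hadm, hrep⟩ := hv
      obtain ⟨r, hr, hcop, hodd⟩ := loc m n hm1 hadm
      have hn2 := hadm.1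
      have hkz : (1 : ℤ) ≤ (k : ℤ) := by exact_mod_cast (by omega : 1 ≤ k)
      have hkW : (k : ℤ) ^ W ≤ (k : ℤ) ^ (W + J + 1) := pow_le_pow_right₀ hkz (by omega)
      refine ⟨h, hh1, hh2, q - (c' + κ * v), hq.trans hkW, (n : ℤ) - r - h * q, ?_, ?_, ?_⟩
      · have e1 : (n : ℤ) - r - h * q = ((n : ℤ) - h * q) - r := by ring
        have e2 : |((n : ℤ) - h * q) - r| ≤ |(n : ℤ) - h * q| + r := by
          refine (abs_sub _ _).trans (le_of_eq ?_)
          rw [Nat.abs_cast]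
        have e3 : (r : ℤ) ≤ (k : ℤ) ^ J := by
          have : r ≤ k ^ J := by omega
          exact_mod_cast this
        rw [e1]
        refine e2.trans ?_
        have e4 : (k : ℤ) ^ W ≤ (k : ℤ) ^ (W + J) := pow_le_pow_right₀ hkz (by omega)
        have e5 : (k : ℤ) ^ J ≤ (k : ℤ) ^ (W + J) := pow_le_pow_right₀ hkz (by omega)
        have e6 : (4 : ℤ) ≤ k := by exact_mod_cast hk4
        have e7 : 0 < (k : ℤ) ^ (W + J) := by positivity
        rw [pow_succ]
        nlinarith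
      · have e1 : (h : ℤ) * (c' + (q - (c' + κ * v)) + κ * v) + ((n : ℤ) - r - h * q) = n - r := by ring
        rw [e1]
        have : (r : ℤ) < n := by exact_mod_cast (by omega : r < n)
        linarith
      · have e1 : (h : ℤ) * (c' + (q - (c' + κ * v)) + κ * v) + ((n : ℤ) - r - h * q) = ((n - r : ℕ) : ℤ) := by
          rw [Nat.cast_sub (by omega)]
          ring
        rw [e1, Int.toNat_natCast]
        intro hP
        apply hrep
        exact many_of c hc0 N₀ hN₀ m n r hm1 hr (by omega) hcop hodd hP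

/-- the uniform distribution -/
lemma uniform (k : ℕ) : Exchangeable 2 1 (1 / 2) 0 k (fun _ => 1 / (2 : ℝ) ^ k) := by
  have h1 : ∑ v ∈ range (2 ^ k), (1 / (2 : ℝ) ^ k) = 1 := by
    rw [sum_const, card_range, nsmul_eq_mul]
    push_cast
    field_simp
  have h2 : ∀ i u : ℕ, i ≤ k → begins 2 k (fun _ => 1 / (2 : ℝ) ^ k) i u = 1 / (2 : ℝ) ^ i := by
    intro i u hi
    unfold begins
    simp only
    rw [sum_const, card_range, nsmul_eq_mul]
    push_cast
    have : (2 : ℝ) ^ k = 2 ^ (k - i) * 2 ^ i := by rw [← pow_add]; congr 1; omega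
    rw [this]
    field_simp
  refine ⟨fun v => by positivity, h1, fun _ => 1 / (2 : ℝ) ^ k, fun v => by positivity, h1, fun v _ => by simp, ?_⟩
  intro i u hi hu
  refine ⟨0, 1, 1, by norm_num, by norm_num, by norm_num, by norm_num, fun w _ => by simp, ?_, ?_⟩
  · rw [h2 i u (by omega), h2 (i + 1) _ hi, pow_succ]
    exact le_of_eq (by field_simp)
  · rw [h2 i u (by omega), h2 (i + 1) _ hi, pow_succ]
    exact le_of_eq (by field_simp)

open Classical in
/-- There is a constant `c > 0` such that: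
(1) for all `J`, `U` and all large `x`, the number of the `n ≤ x` such that `Many c m n` fails for some `1 ≤ m ≤ (log x) ^ J`
with `(m, n)` admissible is at most `x / (log x) ^ U`;
(2) let `v < b ^ k` be a random integer whose distribution `p` has exchangeable blocks of digits. With a probability of at
least `1 - 1 / k ^ U` one has `Many c m n` for ALL `1 ≤ m ≤ k ^ J` and ALL `n` with `(m, n)` admissible and
`|n - h q| ≤ k ^ W` for some `q` with `|q - (c' + κ v)| ≤ k ^ W` and some `1 ≤ h ≤ k ^ J`. -/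
theorem result : ∃ c : ℝ, 0 < c ∧
    (∀ J U : ℕ, ∃ x₀ : ℝ, ∀ x : ℝ, x₀ ≤ x → (((Icc 1 ⌊x⌋₊).filter (fun n : ℕ => ¬ ∀ m : ℕ, 1 ≤ m → (m : ℝ) ≤ Real.log x ^ J →
      Admissible m n → Many c m n)).card : ℝ) ≤ x / Real.log x ^ U) ∧
    (∀ (b L : ℕ), 2 ≤ b → 1 ≤ L → ∀ η : ℝ, 0 < η → η ≤ 1 → ∀ (T₀ : ℕ) (κ : ℤ), κ ≠ 0 →
    ∀ B J W U : ℕ, ∃ k₀ : ℕ, ∀ k : ℕ, k₀ ≤ k → ∀ p : ℕ → ℝ, Exchangeable b L η T₀ k p → ∀ c' : ℤ, |c'| ≤ B * (b : ℤ) ^ k →
      ∑ v ∈ range (b ^ k), (if ∀ q : ℤ, |q - (c' + κ * v)| ≤ (k : ℤ) ^ W → ∀ h : ℕ, 1 ≤ h → h ≤ k ^ J →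
        ∀ n : ℕ, |(n : ℤ) - h * q| ≤ (k : ℤ) ^ W → ∀ m : ℕ, 1 ≤ m → m ≤ k ^ J → Admissible m n → Many c m n
          then 0 else p v) ≤ 1 / (k : ℝ) ^ U) := by
  obtain ⟨c, hc, h⟩ := digits
  refine ⟨c, hc, fun J U => ?_, h⟩
  obtain ⟨k₀, hk₀⟩ := h 2 1 le_rfl le_rfl (1 / 2) (by norm_num) (by norm_num) 0 1 one_ne_zero 0 J 0 (U + 1)
  refine ⟨max (2 ^ (k₀ + 1)) (Real.exp 2), fun x hx => ?_⟩
  have hx1 : (2 : ℝ) ^ (k₀ + 1) ≤ x := (le_max_left _ _).trans hx
  have hx2 : Real.exp 2 ≤ x := (le_max_right _ _).trans hx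
  have hx0 : 0 < x := (Real.exp_pos 2).trans_le hx2
  have hl2 : 2 ≤ Real.log x := by rwa [Real.le_log_iff_exp_le hx0]
  have hfl1 : 1 ≤ ⌊x⌋₊ := by
    apply Nat.le_floor
    push_cast
    have : (1 : ℝ) ≤ Real.exp 2 := Real.one_le_exp (by norm_num)
    linarith
  -- the number of the digits
  obtain ⟨k, hk⟩ : ∃ k, k = Nat.log 2 ⌊x⌋₊ + 1 := ⟨_, rfl⟩
  have hk1 : ⌊x⌋₊ < 2 ^ k := by rw [hk]; exact Nat.lt_pow_succ_log_self (by norm_num) _
  have hk2 : 2 ^ (k - 1) ≤ ⌊x⌋₊ := by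
    rw [hk, Nat.add_sub_cancel]
    exact Nat.pow_log_le_self 2 (by omega)
  have hk3 : x < 2 ^ k := by
    have h1 := Nat.lt_floor_add_one x
    have h2 : ⌊x⌋₊ + 1 ≤ 2 ^ k := hk1
    have h3 : ((⌊x⌋₊ + 1 : ℕ) : ℝ) ≤ ((2 ^ k : ℕ) : ℝ) := by exact_mod_cast h2
    push_cast at h3
    linarith
  have hk4 : (2 : ℝ) ^ k ≤ 2 * x := by
    have h1 : ((2 ^ (k - 1) : ℕ) : ℝ) ≤ ⌊x⌋₊ := by exact_mod_cast hk2
    have h2 := Nat.floor_le hx0.le
    have h3 : (2 : ℝ) ^ k = 2 * 2 ^ (k - 1) := by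
      rw [← pow_succ']
      congr 1
      omega
    push_cast at h1
    rw [h3]
    linarith
  have hkk0 : k₀ ≤ k := by
    by_contra hcon
    push Not at hcon
    have h1 : (2 : ℝ) ^ k ≤ 2 ^ (k₀ + 1) := pow_le_pow_right₀ (by norm_num) (by omega)
    linarith
  have hlk : Real.log x ≤ k := by
    have h1 : Real.log x ≤ Real.log ((2 : ℝ) ^ k) := Real.log_le_log hx0 hk3.le
    rw [Real.log_pow] at h1
    have h2 : (k : ℝ) * Real.log 2 ≤ k * 1 := by
      apply mul_le_mul_of_nonneg_left _ (Nat.cast_nonneg _)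
      linarith [Real.log_two_lt_d9]
    linarith
  have hmain := hk₀ k hkk0 _ (uniform k) 0 (by simp)
  have hsum : (((Icc 1 ⌊x⌋₊).filter (fun n : ℕ => ¬ ∀ m : ℕ, 1 ≤ m → (m : ℝ) ≤ Real.log x ^ J →
      Admissible m n → Many c m n)).card : ℝ) * (1 / (2 : ℝ) ^ k) ≤ 1 / (k : ℝ) ^ (U + 1) := by
    refine le_trans ?_ hmain
    rw [← nsmul_eq_mul, ← sum_const]
    have hsub : (Icc 1 ⌊x⌋₊).filter (fun n : ℕ => ¬ ∀ m : ℕ, 1 ≤ m → (m : ℝ) ≤ Real.log x ^ J →
      Admissible m n → Many c m n) ⊆ range (2 ^ k) := by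
      intro n hn
      rw [mem_filter, mem_Icc] at hn
      rw [mem_range]
      omega
    refine le_trans (sum_le_sum ?_) (sum_le_sum_of_subset_of_nonneg hsub fun v _ _ => ?_)
    · intro n hn
      rw [mem_filter] at hn
      rw [if_neg]
      intro hall
      apply hn.2
      intro m hm1 hm2 hadm
      refine hall (n : ℤ) (by simp) 1 le_rfl ?_ n (by simp) m hm1 ?_ hadm
      · exact Nat.one_le_pow _ _ (by omega)
      · have h1 : (m : ℝ) ≤ (k : ℝ) ^ J := hm2.trans (pow_le_pow_left₀ (by linarith) hlk J)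
        exact_mod_cast h1
    · split_ifs
      · exact le_rfl
      · positivity
  have hk0 : (0 : ℝ) < k := by linarith
  have h2k : (0 : ℝ) < 2 ^ k := by positivity
  rw [mul_one_div, div_le_iff₀ h2k] at hsum
  refine hsum.trans ?_
  have hlx0 : 0 < Real.log x := by linarith
  calc 1 / (k : ℝ) ^ (U + 1) * 2 ^ k ≤ 1 / Real.log x ^ (U + 1) * (2 * x) := by gcongr
    _ = (2 / Real.log x) * (x / Real.log x ^ U) := by
        rw [pow_succ]
        field_simp
    _ ≤ 1 * (x / Real.log x ^ U) := by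
        apply mul_le_mul_of_nonneg_right _ (by positivity)
        rw [div_le_one hlx0]
        exact hl2
    _ = x / Real.log x ^ U := one_mul _

end Pool.Agent.Results.MP_4011c3_nt.AlmostAllFivePrimeFactors
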