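import Mathlib
import Pool.Agent.D0H91.UB.Qg

/-!
# Primes `p < n` with `⌊(n - p) / m⌋` in a given set, for almost every real `m`
-/

set_option autoImplicit false

open Finset MeasureTheory Filter

namespace Pool.Agent.Results.MP_4011c3_nt.GenericCoefficients

open Classical in
/-- The primes `p < n` with `⌊(n - p) / m⌋ ∈ Q`. -/
noncomputable def sol (Q : Set ℕ) (m : ℝ) (n : ℕ) : Finset ℕ :=
  (range n).filter fun p => p.Prime ∧ ⌊((n : ℝ) - p) / m⌋₊ ∈ Q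

open Classical in
/-- The number of elements `< x` of `Q`. -/
noncomputable def cnt (Q : Set ℕ) (x : ℝ) : ℕ := ((range ⌈x⌉₊).filter fun q => q ∈ Q).card

/-- The primes `q` such that `⌊c (p_q - q + 1)⌋` is prime, `p_q` the `q`-th prime (`c = 1`: the condition of Q1). -/
def setQ1 (c : ℝ) : Set ℕ := {q | q.Prime ∧ ⌊c * ((Nat.nth Nat.Prime (q - 1) - q + 1 : ℕ) : ℝ)⌋₊.Prime}

/-- The primes `q` such that `⌊c q ^ 2⌋` is prime (in place of `q ^ 2 - 2` in Q2). -/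
def setQ2 (c : ℝ) : Set ℕ := {q | q.Prime ∧ ⌊c * (q : ℝ) ^ 2⌋₊.Prime}

open Classical in
/-- (1) For every set `Q` and almost every real `m > 0`: for all `A`, all large `N` and all but at most `N / log ^ A N` of
the `n ≤ N`, the sum of `log p` over the primes `p < n` with `⌊(n - p) / m⌋ ∈ Q` is `m` times the number of elements
`< n / m` of `Q`, up to `N / log ^ A N`. (2) If `Q` has at least `x / log ^ C x` elements below every large `x`, then for
almost every `m` the number of these primes is `(1 ± ε) m cnt Q (n / m) / log n` for all but `N / log ^ A N` of the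
`n ≤ N`. (3) For almost every `c > 0` and almost every `m > 0`, with the sets `setQ1 c` and `setQ2 c` the number of these
primes is `(1 ± ε) n / log ^ 3 n`, resp. `(1 ± ε) n / (2 log ^ 3 n)`, for all but `N / log ^ A N` of the `n ≤ N`. -/
theorem result :
    (∀ Q : Set ℕ, ∀ᵐ m : ℝ, 0 < m → ∀ A : ℕ, ∃ N₀ : ℕ, ∀ N : ℕ, N₀ ≤ N →
      (((Icc 1 N).filter fun n : ℕ => (N : ℝ) / Real.log N ^ A < |∑ p ∈ sol Q m n, Real.log p - m * cnt Q (n / m)|).card : ℝ) ≤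
        N / Real.log N ^ A) ∧
    (∀ (Q : Set ℕ) (C : ℕ), (∀ᶠ x : ℕ in atTop, (x : ℝ) ≤ cnt Q x * Real.log x ^ C) → ∀ᵐ m : ℝ, 0 < m →
      ∀ (ε : ℝ) (A : ℕ), 0 < ε → ∃ N₀ : ℕ, ∀ N : ℕ, N₀ ≤ N →
      (((Icc 1 N).filter fun n : ℕ => ¬ ((1 - ε) * (m * cnt Q (n / m)) ≤ (sol Q m n).card * Real.log n ∧
        (sol Q m n).card * Real.log n ≤ (1 + ε) * (m * cnt Q (n / m)))).card : ℝ) ≤ N / Real.log N ^ A) ∧
    ∀ᵐ c : ℝ, 0 < c → ∀ᵐ m : ℝ, 0 < m → ∀ (ε : ℝ) (A : ℕ), 0 < ε → ∃ N₀ : ℕ, ∀ N : ℕ, N₀ ≤ N →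
      (((Icc 1 N).filter fun n : ℕ => ¬ ((1 - ε) * n ≤ (sol (setQ1 c) m n).card * Real.log n ^ 3 ∧
        (sol (setQ1 c) m n).card * Real.log n ^ 3 ≤ (1 + ε) * n)).card : ℝ) ≤ N / Real.log N ^ A ∧
      (((Icc 1 N).filter fun n : ℕ => ¬ ((1 - ε) * (n / 2) ≤ (sol (setQ2 c) m n).card * Real.log n ^ 3 ∧
        (sol (setQ2 c) m n).card * Real.log n ^ 3 ≤ (1 + ε) * (n / 2))).card : ℝ) ≤ N / Real.log N ^ A := by
  refine ⟨fun Q => ?_, fun Q C hC => ?_, ?_⟩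
  · filter_upwards [Pool.Agent.D0H91.UB.qd Q] with m hm hm0 A
    exact (hm hm0 A).exists_forall_of_atTop
  · filter_upwards [Pool.Agent.D0H91.UB.qd Q] with m hm hm0 ε A hε
    have h := Pool.Agent.D0H91.UB.qe Q hm0 C hC (hm hm0) (fun _ => True) (Filter.Eventually.of_forall fun _ => trivial) ε hε A
    simp only [true_and] at h
    exact h.exists_forall_of_atTop
  · filter_upwards [Pool.Agent.D0H91.UB.hq1, Pool.Agent.D0H91.UB.hq2] with c h1 h2 hc
    filter_upwards [Pool.Agent.D0H91.UB.qd (Pool.Agent.D0H91.UB.Sq1 c), Pool.Agent.D0H91.UB.qd (Pool.Agent.D0H91.UB.Sq2 c)]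
      with m g1 g2 hm0 ε A hε
    have e1 := Pool.Agent.D0H91.UB.fin_count _ 1 one_pos (h1 hc) hm0 (g1 hm0) ε hε A
    have e2 := Pool.Agent.D0H91.UB.fin_count _ (1 / 2) (by norm_num) (h2 hc) hm0 (g2 hm0) ε hε A
    obtain ⟨N₀, hN₀⟩ := (e1.and e2).exists_forall_of_atTop
    refine ⟨N₀, fun N hN => ?_⟩
    obtain ⟨b1, b2⟩ := hN₀ N hN
    have q1 : ∀ x : ℝ, 1 / 2 * x = x / 2 := fun x => by ring
    simp only [one_mul, q1] at b1 b2
    exact ⟨b1, b2⟩

end Pool.Agent.Results.MP_4011c3_nt.GenericCoefficients
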