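import Pool.Agent.D0H24.QW.AllQ

/-!
# MP_4011c3_nt: question Q1 in random models of the primes, uniformly in `m`

Independent events `E j` choose the members `j ≥ 1` of a random set `A`. The probabilities tend to
zero and are at least `1 / (log j) ^ κ` for all large `j` prime to a fixed `M`. Almost surely there is
`C` such that for all admissible pairs `(m, n)` with `n ≥ C m` there are at least `n / (log n) ^ K`
members `p < n` of `A` with `c = ⌊(n - p) / m⌋` and `a_c - c + 1` members of `A`, where `a_k` is the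
`k`-th member.
-/

set_option autoImplicit false

open MeasureTheory ProbabilityTheory Filter

namespace Pool.Agent.Results.MP_4011c3_nt.RandomModelsQ1

/-- Question Q1 for random models of the primes. -/
theorem result {Ω : Type*} [MeasurableSpace Ω] (P : Measure Ω) [IsProbabilityMeasure P]
    (E : ℕ → Set Ω) (hE : ∀ j, MeasurableSet (E j)) (hind : iIndepSet E P) (M κ : ℕ) (hM : 1 ≤ M)
    (hsmall : Tendsto (fun j => P.real (E j)) atTop (nhds 0))
    (hlarge : ∀ᶠ j : ℕ in atTop, Nat.Coprime j M → 1 / (Real.log j) ^ κ ≤ P.real (E j)) :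
    ∃ K : ℕ, ∀ᵐ ω ∂P, ∃ C : ℕ, ∀ m n : ℕ, 1 ≤ m → C * m ≤ n →
      ((m = 1 ∧ Even n) ∨ (m = 3 ∧ n % 6 ≠ 1) ∨ m = 2 ∨ 4 ≤ m) →
      (n : ℝ) / (Real.log n) ^ K ≤ Set.ncard {p : ℕ | (1 ≤ p ∧ ω ∈ E p) ∧ p < n ∧
        (1 ≤ (n - p) / m ∧ ω ∈ E ((n - p) / m)) ∧
        ω ∈ E (Nat.nth (fun j => 1 ≤ j ∧ ω ∈ E j) ((n - p) / m - 1) - (n - p) / m + 1)} := by
  obtain ⟨K, hK⟩ := Pool.Agent.D0H24.QW.main_ev E hE hind M κ hM hsmall hlarge
  refine ⟨K, ?_⟩
  filter_upwards [hK] with ω hω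
  obtain ⟨C, hC⟩ := hω
  refine ⟨C, fun m n hm hCm hA => ?_⟩
  have h1 := hC m n hm hCm hA
  have e : Pool.Agent.D0H24.QW.Sol {j | 1 ≤ j ∧ ω ∈ E j} m n =
      {p : ℕ | (1 ≤ p ∧ ω ∈ E p) ∧ p < n ∧ (1 ≤ (n - p) / m ∧ ω ∈ E ((n - p) / m)) ∧
        ω ∈ E (Nat.nth (fun j => 1 ≤ j ∧ ω ∈ E j) ((n - p) / m - 1) - (n - p) / m + 1)} := by
    ext p
    constructor
    · rintro ⟨a, b, c, d⟩
      exact ⟨a, b, c, d.2⟩
    · rintro ⟨a, b, c, d⟩
      exact ⟨a, b, c, Nat.le_add_left _ _, d⟩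
  rw [e] at h1
  exact h1

end Pool.Agent.Results.MP_4011c3_nt.RandomModelsQ1
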