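import Pool.Agent.D0H68.TU.GolF

/-!
# Primes `p < n` with `⌊(n - p) / m⌋` and `q ^ 2 - 2` prime: sequential random models with a growing sieve

Q2 asks whether for every admissible pair `(m, n)` there is a prime `p < n` such that `q = ⌊(n - p) / m⌋` and
`q ^ 2 - 2` are prime. We answer it for ALL large `n` and all `m` up to a power of `n` close to `n`, with the asymptotic
number of solutions for `m` up to a power of `n` close to `√n`, in sequential random models of the primes: the
integers are decided one after the other (the events `S n` are adapted to a filtration, no independence is assumed),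
and the conditional probability, given the past, of choosing an integer `n + 1` without prime factors at most
`z(n + 1)` is compared with `V(z(n + 1)) / log n`, where `V(y) = ∏_{q ≤ y} (1 - 1/q)⁻¹`. Here `z` is ANY function with
`z(n) ≤ n ^ θ` for large `n`, so that the model has the right local densities for all primes up to a power of `n`.

Proof. The pairs `(p, q)` with a given remainder `r` of `n - p` modulo `m` are divided by the order of `p`, `q`,
`q ^ 2 - 2`. For each of the three orders, the numbers are decided in three stages; for each stage an exponential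
supermartingale with predictable weights compares the number of the pairs which survive with the compensator, for all
`n`, `m`, `r` at the same time. The admissible pairs `(m, n)` are exactly those for which there is a remainder `r` with
`n - r` coprime to `m` and of the right parity (for `n > 2 m + 1`), and for these the fundamental lemma of the sieve
(`Pool.Agent.H373R2.T7.sys_fund`) bounds the expected number from below.
-/

set_option autoImplicit false

open MeasureTheory Filter Finset
open scoped Topology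

namespace Pool.Agent.Results.MP_4011c3_nt.SequentialSieveModels

open Pool.Agent.D0H68.SD Pool.Agent.D0H68.TU

/-- **Q2 in sequential sieved models.**  There are absolute constants `C` and `A` with the following properties.  Let
`S n`, `n = 0, 1, …`, be events adapted to a filtration `ℱ`, let `0 < θ < 1 / C` and let `z : ℕ → ℕ` be any function with
`z(n) ≤ n ^ θ` for large `n`.  (1) Suppose that almost surely the conditional probability of `S (n + 1)` given `ℱ n` is
at least `c V(z(n + 1)) / log n` for some `c > 0` and all large `n` such that `n + 1` has no prime factor at most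
`z(n + 1)`.  Then almost surely for some `κ > 0`: for all large `n` and all `m ≤ n ^ (1 - C θ)` with `(m, n)` admissible
there are at least `κ (n / m) / (log n) ^ A` integers `p`, `0 < p < n`, such that `p`, `q = ⌊(n - p) / m⌋ ≥ 2` and
`q ^ 2 - 2` are chosen, and at least `κ E(m, n)` if `m ≤ n ^ ((1 - C θ) / 2)`, where `E(m, n)` is the expected number.
(2) If only integers without prime factors at most `z(n)` are chosen and the conditional probabilities are asymptotic
to `V(z(n + 1)) / log n`, then this number is almost surely `(1 + o(1)) E(m, n)` for `n → ∞`, uniformly for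
`m ≤ n ^ ((1 - C θ) / 2)` with `(m, n)` admissible.  (3) `E(m, n) ≥ (n / m) / (200 (log n) ^ A)` for all large `n` and
all `m ≤ n ^ (1 - C θ)` with `(m, n)` admissible. -/
theorem result : ∃ C : ℝ, 1 ≤ C ∧ ∃ A : ℕ,
    (∀ {Ω : Type} [mΩ : MeasurableSpace Ω] (μ : Measure Ω) [IsProbabilityMeasure μ]
      (ℱ : Filtration ℕ mΩ) (S : ℕ → Set Ω), (∀ n, MeasurableSet[ℱ n] (S n)) →
      ∀ θ : ℝ, 0 < θ → C * θ < 1 → ∀ z : ℕ → ℕ, (∀ᶠ n : ℕ in atTop, (z n : ℝ) ≤ (n : ℝ) ^ θ) →
      ((∀ᵐ ω ∂μ, ∃ c : ℝ, 0 < c ∧ ∀ᶠ n : ℕ in atTop, Rough z (n + 1) →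
          c * V (z (n + 1)) ≤ (μ[(S (n + 1)).indicator (fun _ => (1 : ℝ)) | ℱ n]) ω * Real.log n) →
        ∀ᵐ ω ∂μ, ∃ κ : ℝ, 0 < κ ∧
          (∀ᶠ n : ℕ in atTop, ∀ m : ℕ, Adm m n → (m : ℝ) ≤ (n : ℝ) ^ (1 - C * θ) →
            κ * ((n : ℝ) / m / Real.log n ^ A) ≤ cntq S ω m n) ∧
          (∀ᶠ n : ℕ in atTop, ∀ m : ℕ, Adm m n → (m : ℝ) ≤ (n : ℝ) ^ ((1 - C * θ) / 2) →
            κ * expq z m n ≤ cntq S ω m n)) ∧
      ((∀ n, ¬ Rough z n → S n = ∅) →
        (∀ᵐ ω ∂μ, Tendsto (fun n : ℕ => (μ[(S (n + 1)).indicator (fun _ => (1 : ℝ)) | ℱ n]) ω * Real.log n /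
          V (z (n + 1))) (atTop ⊓ 𝓟 {n : ℕ | Rough z (n + 1)}) (𝓝 1)) →
        ∀ᵐ ω ∂μ, ∀ δ : ℝ, 0 < δ → ∀ᶠ n : ℕ in atTop, ∀ m : ℕ, Adm m n →
          (m : ℝ) ≤ (n : ℝ) ^ ((1 - C * θ) / 2) → |(cntq S ω m n : ℝ) - expq z m n| ≤ δ * expq z m n)) ∧
    (∀ θ : ℝ, 0 < θ → C * θ < 1 → ∀ z : ℕ → ℕ, (∀ᶠ n : ℕ in atTop, (z n : ℝ) ≤ (n : ℝ) ^ θ) →
      ∀ᶠ n : ℕ in atTop, ∀ m : ℕ, Adm m n → (m : ℝ) ≤ (n : ℝ) ^ (1 - C * θ) →
        1 / 200 * ((n : ℝ) / m / Real.log n ^ A) ≤ expq z m n) :=
  final

end Pool.Agent.Results.MP_4011c3_nt.SequentialSieveModels
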